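import Mathlib
import Pool.Agent.helper17.DyS.Defs

set_option autoImplicit false

/-!
# The inequality of Kahn, Kalai and Linial for the biased cube

Proof by a dual logarithmic Sobolev inequality (after Falik and Samorodnitsky), without Fourier analysis.
-/

open scoped Classical
open Finset Pool.Agent.helper17.Dya Pool.Agent.helper17.DyS

namespace Pool.Agent.helper64.DyS

/-! ### setting one coordinate -/

section up

variable {ι : Type}

lemma up_self (i : ι) (b : Bool) (ω : ι → Bool) : up i b ω i = b := by simp [up]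

lemma up_ne {i j : ι} (h : j ≠ i) (b : Bool) (ω : ι → Bool) : up i b ω j = ω j := by simp [up, h]

lemma up_up (i : ι) (b c : Bool) (ω : ι → Bool) : up i b (up i c ω) = up i b ω := by
  funext j
  by_cases h : j = i
  · subst h
    rw [up_self, up_self]
  · rw [up_ne h, up_ne h, up_ne h]

lemma up_comm {i j : ι} (h : i ≠ j) (b c : Bool) (ω : ι → Bool) : up i b (up j c ω) = up j c (up i b ω) := by
  funext k
  by_cases h1 : k = i
  · subst h1
    rw [up_self, up_ne h, up_self]
  · by_cases h2 : k = j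
    · subst h2
      rw [up_ne h1, up_self, up_self]
    · rw [up_ne h1, up_ne h2, up_ne h2, up_ne h1]

lemma up_eq {i : ι} {b : Bool} {ω : ι → Bool} (h : ω i = b) : up i b ω = ω := by
  funext j
  by_cases hj : j = i
  · subst hj
    rw [up_self, h]
  · rw [up_ne hj]

/-- flip one coordinate -/
noncomputable def flp (i : ι) (ω : ι → Bool) : ι → Bool := up i (!(ω i)) ω

lemma flp_flp (i : ι) (ω : ι → Bool) : flp i (flp i ω) = ω := by
  unfold flp
  rw [up_self, up_up, Bool.not_not]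
  exact up_eq rfl

lemma const_of_inv [Fintype ι] {h : (ι → Bool) → ℝ} (hh : ∀ i b ω, h (up i b ω) = h ω) (ω ω' : ι → Bool) :
    h ω = h ω' := by
  have key : ∀ s : Finset ι, h (fun j => if j ∈ s then ω' j else ω j) = h ω := by
    intro s
    induction s using Finset.induction_on with
    | empty => simp
    | insert i s hi ih =>
      have e : (fun j => if j ∈ insert i s then ω' j else ω j) =
          up i (ω' i) (fun j => if j ∈ s then ω' j else ω j) := by
        funext j
        by_cases hj : j = i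
        · subst hj
          rw [up_self]
          simp
        · rw [up_ne hj]
          simp [hj]
      rw [e, hh, ih]
  have h1 := key Finset.univ
  simpa using h1.symm

end up

section

variable {ι : Type} [Fintype ι] {p : ℝ}

lemma sum_flp (F : (ι → Bool) → ℝ) (i : ι) : ∑ ω, F (flp i ω) = ∑ ω, F ω :=
  Equiv.sum_comp (Function.Involutive.toPerm (flp i) (flp_flp i)) F

lemma wt_up (i : ι) (b : Bool) (ω : ι → Bool) :
    wt p (up i b ω) = wb p b * ∏ j ∈ Finset.univ.erase i, wb p (ω j) := by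
  unfold wt
  rw [← Finset.mul_prod_erase Finset.univ _ (Finset.mem_univ i), up_self]
  congr 1
  refine Finset.prod_congr rfl fun j hj => ?_
  rw [up_ne (Finset.ne_of_mem_erase hj)]

/-- average over one coordinate -/
noncomputable def Av (p : ℝ) (i : ι) (g : (ι → Bool) → ℝ) : (ι → Bool) → ℝ :=
  fun ω => p * g (up i true ω) + (1 - p) * g (up i false ω)

/-- the difference with the average -/
noncomputable def Dv (p : ℝ) (i : ι) (g : (ι → Bool) → ℝ) : (ι → Bool) → ℝ := fun ω => g ω - Av p i g ω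

lemma Ev_Av (i : ι) (g : (ι → Bool) → ℝ) : Ev p (Av p i g) = Ev p g := by
  unfold Ev
  have h1 := sum_flp (fun ω => wt p ω * g ω) i
  have h2 := sum_flp (fun ω => wt p ω * Av p i g ω) i
  have h3 : ∑ ω, (wt p ω * g ω + wt p (flp i ω) * g (flp i ω)) =
      ∑ ω, (wt p ω * Av p i g ω + wt p (flp i ω) * Av p i g (flp i ω)) := by
    refine Finset.sum_congr rfl fun ω _ => ?_
    unfold Av flp
    rcases hb : ω i with _ | _
    · have e0 : up i false ω = ω := up_eq hb
      have w0 : wt p ω = wb p false * ∏ j ∈ Finset.univ.erase i, wb p (ω j) := by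
        rw [← wt_up, e0]
      simp only [Bool.not_false, up_up, e0]
      rw [wt_up, w0]
      simp only [wb]
      simp
      ring
    · have e0 : up i true ω = ω := up_eq hb
      have w0 : wt p ω = wb p true * ∏ j ∈ Finset.univ.erase i, wb p (ω j) := by
        rw [← wt_up, e0]
      simp only [Bool.not_true, up_up, e0]
      rw [wt_up, w0]
      simp only [wb]
      simp
      ring
  rw [Finset.sum_add_distrib, Finset.sum_add_distrib, h1, h2] at h3
  linarith

omit [Fintype ι] in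
lemma Av_up (i : ι) (b : Bool) (g : (ι → Bool) → ℝ) (ω : ι → Bool) : Av p i g (up i b ω) = Av p i g ω := by
  unfold Av
  rw [up_up, up_up]

omit [Fintype ι] in
lemma Av_comm (i j : ι) (g : (ι → Bool) → ℝ) : Av p i (Av p j g) = Av p j (Av p i g) := by
  by_cases h : i = j
  · subst h
    rfl
  · funext ω
    unfold Av
    rw [up_comm h, up_comm h, up_comm h, up_comm h]
    ring

omit [Fintype ι] in
lemma Av_Dv (i j : ι) (g : (ι → Bool) → ℝ) : Av p i (Dv p j g) = Dv p j (Av p i g) := by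
  funext ω
  have h := congrFun (Av_comm (p := p) i j g) ω
  have e : Av p i (Dv p j g) ω = Av p i g ω - Av p i (Av p j g) ω := by
    show p * (g (up i true ω) - Av p j g (up i true ω)) + (1 - p) * (g (up i false ω) - Av p j g (up i false ω)) =
      (p * g (up i true ω) + (1 - p) * g (up i false ω)) -
        (p * Av p j g (up i true ω) + (1 - p) * Av p j g (up i false ω))
    ring
  rw [e, h]
  rfl

omit [Fintype ι] in
lemma Dv_Dv (i j : ι) (g : (ι → Bool) → ℝ) : Dv p i (Dv p j g) = Dv p j (Dv p i g) := by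
  funext ω
  have h1 := congrFun (Av_Dv (p := p) i j g) ω
  have h2 := congrFun (Av_Dv (p := p) j i g) ω
  have h3 := congrFun (Av_comm (p := p) i j g) ω
  show Dv p j g ω - Av p i (Dv p j g) ω = Dv p i g ω - Av p j (Dv p i g) ω
  rw [h1, h2]
  show g ω - Av p j g ω - (Av p i g ω - Av p j (Av p i g) ω) =
    g ω - Av p i g ω - (Av p j g ω - Av p i (Av p j g) ω)
  rw [h3]
  ring

omit [Fintype ι] in
lemma Av_pos (h0 : 0 < p) (h1 : p < 1) (i : ι) {Z : (ι → Bool) → ℝ} (hZ : ∀ ω, 0 < Z ω) (ω : ι → Bool) :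
    0 < Av p i Z ω := by
  unfold Av
  have := hZ (up i true ω)
  have := hZ (up i false ω)
  have : 0 < 1 - p := by linarith
  positivity

/-- the second moment splits -/
lemma Ev_sq (i : ι) (g : (ι → Bool) → ℝ) :
    Ev p (fun ω => g ω ^ 2) - Ev p (fun ω => Av p i g ω ^ 2) = Ev p (fun ω => Dv p i g ω ^ 2) := by
  rw [← Ev_Av i (fun ω => g ω ^ 2), ← Ev_Av i (fun ω => Dv p i g ω ^ 2), ← Ev_sub]
  congr 1
  funext ω
  have h1 := Av_up (p := p) i true g ω
  have h2 := Av_up (p := p) i false g ω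
  show (p * g (up i true ω) ^ 2 + (1 - p) * g (up i false ω) ^ 2) - Av p i g ω ^ 2 =
    p * (g (up i true ω) - Av p i g (up i true ω)) ^ 2 + (1 - p) * (g (up i false ω) - Av p i g (up i false ω)) ^ 2
  rw [h1, h2]
  unfold Av
  ring

lemma Ev_abs_Av (h0 : 0 ≤ p) (h1 : p ≤ 1) (i : ι) (g : (ι → Bool) → ℝ) :
    Ev p (fun ω => |Av p i g ω|) ≤ Ev p (fun ω => |g ω|) := by
  rw [← Ev_Av i (fun ω => |g ω|)]
  refine Ev_mono h0 h1 fun ω => ?_
  unfold Av
  refine (abs_add_le _ _).trans ?_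
  rw [abs_mul, abs_mul, abs_of_nonneg h0, abs_of_nonneg (by linarith : (0 : ℝ) ≤ 1 - p)]

/-! ### the inequality for one coordinate -/

lemma one_aux {m x z : ℝ} (hm : 0 < m) (hz : 0 < z) : x ^ 2 * Real.log z ≤ m * z - 2 * x ^ 2 + x ^ 4 / m := by
  by_cases hx : x = 0
  · subst hx
    have : 0 < m * z := mul_pos hm hz
    simp
    linarith
  · have hx2 : 0 < x ^ 2 := by positivity
    have h1 : Real.log (m * z / x ^ 2) ≤ m * z / x ^ 2 - 1 := Real.log_le_sub_one_of_pos (by positivity)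
    have h2 : Real.log (x ^ 2 / m) ≤ x ^ 2 / m - 1 := Real.log_le_sub_one_of_pos (by positivity)
    have h3 : Real.log z = Real.log (m * z / x ^ 2) + Real.log (x ^ 2 / m) := by
      rw [← Real.log_mul (by positivity) (by positivity)]
      congr 1
      field_simp
    rw [h3]
    have h4 : x ^ 2 * (Real.log (m * z / x ^ 2) + Real.log (x ^ 2 / m)) ≤
        x ^ 2 * ((m * z / x ^ 2 - 1) + (x ^ 2 / m - 1)) := mul_le_mul_of_nonneg_left (by linarith) hx2.le
    refine h4.trans (le_of_eq ?_)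
    field_simp
    ring

lemma one {a x y z1 z0 : ℝ} (ha : 0 < a) (hp : a ≤ p) (hp1 : p ≤ 1 - a) (hz1 : 0 < z1) (hz0 : 0 < z0)
    (h : p * z1 + (1 - p) * z0 = 1) :
    p * (x ^ 2 * Real.log z1) + (1 - p) * (y ^ 2 * Real.log z0) ≤ 2 / a * (p * (1 - p) * (x - y) ^ 2) := by
  have h0 : 0 < p := by linarith
  have h1 : 0 < 1 - p := by linarith
  obtain ⟨m, hm⟩ : ∃ m : ℝ, m = p * x ^ 2 + (1 - p) * y ^ 2 := ⟨_, rfl⟩
  have hm0 : 0 ≤ m := by rw [hm]; positivity
  rcases hm0.eq_or_lt with hm0 | hm0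
  · have hx : x = 0 := by
      by_contra hx
      have : 0 < p * x ^ 2 := by positivity
      have : 0 ≤ (1 - p) * y ^ 2 := by positivity
      linarith
    have hy : y = 0 := by
      by_contra hy
      have : 0 < (1 - p) * y ^ 2 := by positivity
      have : 0 ≤ p * x ^ 2 := by positivity
      linarith
    subst hx hy
    simp
  · have e1 := one_aux (x := x) hm0 hz1
    have e2 := one_aux (x := y) hm0 hz0
    have e3 : p * (x ^ 2 * Real.log z1) + (1 - p) * (y ^ 2 * Real.log z0) ≤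
        p * (m * z1 - 2 * x ^ 2 + x ^ 4 / m) + (1 - p) * (m * z0 - 2 * y ^ 2 + y ^ 4 / m) :=
      add_le_add (mul_le_mul_of_nonneg_left e1 h0.le) (mul_le_mul_of_nonneg_left e2 h1.le)
    have e4 : p * (m * z1 - 2 * x ^ 2 + x ^ 4 / m) + (1 - p) * (m * z0 - 2 * y ^ 2 + y ^ 4 / m) =
        p * (1 - p) * (x ^ 2 - y ^ 2) ^ 2 / m := by
      have e5 : p * (m * z1 - 2 * x ^ 2 + x ^ 4 / m) + (1 - p) * (m * z0 - 2 * y ^ 2 + y ^ 4 / m) =
        m * (p * z1 + (1 - p) * z0) - 2 * m + (p * x ^ 4 + (1 - p) * y ^ 4) / m := by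
        rw [show (2 : ℝ) * m = 2 * (p * x ^ 2 + (1 - p) * y ^ 2) by rw [hm]]
        ring
      rw [e5, h]
      field_simp
      rw [hm]
      ring
    have e6 : p * (1 - p) * (x ^ 2 - y ^ 2) ^ 2 / m ≤ 2 / a * (p * (1 - p) * (x - y) ^ 2) := by
      rw [div_le_iff₀ hm0]
      have e7 : a * (x ^ 2 + y ^ 2) ≤ m := by
        rw [hm]
        nlinarith [sq_nonneg x, sq_nonneg y]
      have e8 : (x + y) ^ 2 ≤ 2 / a * m := by
        have : (x + y) ^ 2 ≤ 2 * (x ^ 2 + y ^ 2) := by nlinarith [sq_nonneg (x - y)]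
        have h9 : 2 / a * m ≥ 2 / a * (a * (x ^ 2 + y ^ 2)) := mul_le_mul_of_nonneg_left e7 (by positivity)
        have h10 : 2 / a * (a * (x ^ 2 + y ^ 2)) = 2 * (x ^ 2 + y ^ 2) := by field_simp
        linarith
      have e9 : p * (1 - p) * (x ^ 2 - y ^ 2) ^ 2 = p * (1 - p) * (x - y) ^ 2 * (x + y) ^ 2 := by ring
      rw [e9]
      have e10 : 2 / a * (p * (1 - p) * (x - y) ^ 2) * m = p * (1 - p) * (x - y) ^ 2 * (2 / a * m) := by ring
      rw [e10]
      exact mul_le_mul_of_nonneg_left e8 (by positivity)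
    linarith

/-- one step of the tensorization -/
lemma ls_step {a : ℝ} (ha : 0 < a) (hp : a ≤ p) (hp1 : p ≤ 1 - a) (i : ι) (g Z : (ι → Bool) → ℝ)
    (hZ : ∀ ω, 0 < Z ω) :
    Ev p (fun ω => g ω ^ 2 * Real.log (Z ω)) ≤
      2 / a * Ev p (fun ω => Dv p i g ω ^ 2) + Ev p (fun ω => g ω ^ 2 * Real.log (Av p i Z ω)) := by
  have h0 : 0 < p := by linarith
  have h1 : p < 1 := by linarith
  have e1 : Ev p (fun ω => g ω ^ 2 * Real.log (Z ω)) - Ev p (fun ω => g ω ^ 2 * Real.log (Av p i Z ω)) =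
      Ev p (fun ω => g ω ^ 2 * (Real.log (Z ω) - Real.log (Av p i Z ω))) := by
    rw [← Ev_sub]
    congr 1
    funext ω
    ring
  have e2 : Ev p (fun ω => g ω ^ 2 * (Real.log (Z ω) - Real.log (Av p i Z ω))) ≤
      Ev p (fun ω => 2 / a * Av p i (fun ω => Dv p i g ω ^ 2) ω) := by
    rw [← Ev_Av i]
    refine Ev_mono h0.le h1.le fun ω => ?_
    have hM := Av_pos h0 h1 i hZ ω
    have k1 := Av_up (p := p) i true Z ω
    have k2 := Av_up (p := p) i false Z ω
    have k3 := Av_up (p := p) i true g ω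
    have k4 := Av_up (p := p) i false g ω
    show p * (g (up i true ω) ^ 2 * (Real.log (Z (up i true ω)) - Real.log (Av p i Z (up i true ω)))) +
      (1 - p) * (g (up i false ω) ^ 2 * (Real.log (Z (up i false ω)) - Real.log (Av p i Z (up i false ω)))) ≤
      2 / a * (p * (g (up i true ω) - Av p i g (up i true ω)) ^ 2 +
        (1 - p) * (g (up i false ω) - Av p i g (up i false ω)) ^ 2)
    rw [k1, k2, k3, k4, ← Real.log_div (hZ _).ne' hM.ne', ← Real.log_div (hZ _).ne' hM.ne']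
    have k5 := one (x := g (up i true ω)) (y := g (up i false ω)) ha hp hp1 (div_pos (hZ (up i true ω)) hM)
      (div_pos (hZ (up i false ω)) hM) (by
        have : p * (Z (up i true ω) / Av p i Z ω) + (1 - p) * (Z (up i false ω) / Av p i Z ω) =
          Av p i Z ω / Av p i Z ω := by
          conv_rhs => rw [show Av p i Z ω / Av p i Z ω =
            (p * Z (up i true ω) + (1 - p) * Z (up i false ω)) / Av p i Z ω from rfl]
          ring
        rw [this, div_self hM.ne'])
    refine k5.trans (le_of_eq ?_)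
    unfold Av
    ring
  have e3 : Ev p (fun ω => 2 / a * Av p i (fun ω => Dv p i g ω ^ 2) ω) =
      2 / a * Ev p (fun ω => Dv p i g ω ^ 2) := by
    rw [← Ev_Av i (fun ω => Dv p i g ω ^ 2)]
    unfold Ev
    rw [Finset.mul_sum]
    refine Finset.sum_congr rfl fun ω _ => ?_
    ring
  linarith

/-! ### averages over many coordinates -/

/-- average over the coordinates of a list -/
noncomputable def AvL (p : ℝ) : List ι → ((ι → Bool) → ℝ) → ((ι → Bool) → ℝ)
  | [], g => g
  | i :: l, g => AvL p l (Av p i g)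

omit [Fintype ι] in
lemma AvL_inv (i : ι) (l : List ι) : ∀ (h : (ι → Bool) → ℝ), (∀ b ω, h (up i b ω) = h ω) →
    ∀ b ω, AvL p l h (up i b ω) = AvL p l h ω := by
  induction l with
  | nil => intro h hh; exact hh
  | cons j l ih =>
    intro h hh b ω
    refine ih _ ?_ b ω
    intro b ω
    by_cases hij : i = j
    · subst hij
      exact Av_up i b h ω
    · unfold Av
      rw [up_comm (Ne.symm hij), up_comm (Ne.symm hij), hh, hh]

omit [Fintype ι] in
lemma AvL_up (l : List ι) : ∀ (g : (ι → Bool) → ℝ), ∀ i ∈ l, ∀ b ω, AvL p l g (up i b ω) = AvL p l g ω := by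
  induction l with
  | nil => intro g i hi; simp at hi
  | cons j l ih =>
    intro g i hi b ω
    rcases List.mem_cons.mp hi with h | h
    · subst h
      exact AvL_inv i l _ (fun b ω => Av_up i b g ω) b ω
    · exact ih _ i h b ω

lemma Ev_AvL (l : List ι) : ∀ (g : (ι → Bool) → ℝ), Ev p (AvL p l g) = Ev p g := by
  induction l with
  | nil => intro g; rfl
  | cons j l ih => intro g; exact (ih _).trans (Ev_Av j g)

lemma AvL_univ (g : (ι → Bool) → ℝ) (ω : ι → Bool) : AvL p (Finset.univ : Finset ι).toList g ω = Ev p g := by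
  have h1 : ∀ ω', AvL p (Finset.univ : Finset ι).toList g ω' = AvL p (Finset.univ : Finset ι).toList g ω := by
    intro ω'
    refine const_of_inv ?_ ω' ω
    intro i b ω
    exact AvL_up _ g i (by simp) b ω
  rw [← Ev_AvL (Finset.univ : Finset ι).toList g]
  unfold Ev
  rw [Finset.sum_congr rfl fun ω' _ => by rw [h1 ω'], ← Finset.sum_mul, sum_wt, one_mul]

/-- dual logarithmic Sobolev inequality along a list -/
lemma ls_list {a : ℝ} (ha : 0 < a) (hp : a ≤ p) (hp1 : p ≤ 1 - a) (g : (ι → Bool) → ℝ) (l : List ι) :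
    ∀ Z : (ι → Bool) → ℝ, (∀ ω, 0 < Z ω) → Ev p (fun ω => g ω ^ 2 * Real.log (Z ω)) ≤
      2 / a * (l.map fun i => Ev p (fun ω => Dv p i g ω ^ 2)).sum +
        Ev p (fun ω => g ω ^ 2 * Real.log (AvL p l Z ω)) := by
  induction l with
  | nil =>
    intro Z _
    simp [AvL]
  | cons i l ih =>
    intro Z hZ
    have h1 := ls_step ha hp hp1 i g Z hZ
    have h2 := ih (Av p i Z) (Av_pos (by linarith) (by linarith) i hZ)
    rw [List.map_cons, List.sum_cons]
    show _ ≤ _ + Ev p (fun ω => g ω ^ 2 * Real.log (AvL p l (Av p i Z) ω))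
    linarith

lemma ls_all {a : ℝ} (ha : 0 < a) (hp : a ≤ p) (hp1 : p ≤ 1 - a) (g Z : (ι → Bool) → ℝ) (hZ : ∀ ω, 0 < Z ω)
    (hZ1 : Ev p Z = 1) : Ev p (fun ω => g ω ^ 2 * Real.log (Z ω)) ≤
      2 / a * ∑ i, Ev p (fun ω => Dv p i g ω ^ 2) := by
  have h := ls_list ha hp hp1 g (Finset.univ : Finset ι).toList Z hZ
  rw [Finset.sum_map_toList] at h
  refine h.trans (le_of_eq ?_)
  have h2 : Ev p (fun ω => g ω ^ 2 * Real.log (AvL p (Finset.univ : Finset ι).toList Z ω)) = 0 := by
    unfold Ev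
    refine Finset.sum_eq_zero fun ω _ => ?_
    beta_reduce
    rw [AvL_univ, hZ1, Real.log_one]
    ring
  rw [h2, add_zero]

lemma Ev_smul (c : ℝ) (f : (ι → Bool) → ℝ) : Ev p (fun ω => c * f ω) = c * Ev p f := by
  unfold Ev
  rw [Finset.mul_sum]
  exact Finset.sum_congr rfl fun _ _ => by ring

lemma Ev_const (c : ℝ) : Ev p (fun _ : ι → Bool => c) = c := by
  have h := Ev_smul (p := p) (ι := ι) c (fun _ => 1)
  rw [Ev_one, mul_one] at h
  simpa using h

lemma Ev_nonneg (h0 : 0 ≤ p) (h1 : p ≤ 1) {f : (ι → Bool) → ℝ} (hf : ∀ ω, 0 ≤ f ω) : 0 ≤ Ev p f := by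
  unfold Ev
  exact Finset.sum_nonneg fun ω _ => mul_nonneg (wt_nonneg h0 h1 ω) (hf ω)

/-- the inequality for one function -/
lemma main1 {a : ℝ} (ha : 0 < a) (hp : a ≤ p) (hp1 : p ≤ 1 - a) (g : (ι → Bool) → ℝ) (L : ℝ) :
    L * Ev p (fun ω => g ω ^ 2) ≤ 2 / a * ∑ i, Ev p (fun ω => Dv p i g ω ^ 2) +
      2 * Real.exp L * Ev p (fun ω => |g ω|) ^ 2 := by
  have h0 : 0 < p := by linarith
  have h1 : p < 1 := by linarith
  obtain ⟨m, hm⟩ : ∃ m : ℝ, m = Ev p (fun ω => |g ω|) := ⟨_, rfl⟩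
  have hm0 : 0 ≤ m := by rw [hm]; exact Ev_nonneg h0.le h1.le fun ω => abs_nonneg _
  obtain ⟨η, hη, hηm⟩ : ∃ η : ℝ, 0 < η ∧ (m + η) * m ≤ 2 * m ^ 2 := by
    rcases hm0.eq_or_lt with h | h
    · exact ⟨1, one_pos, by rw [← h]; norm_num⟩
    · exact ⟨m, h, by nlinarith⟩
  have hmη : 0 < m + η := by linarith
  have hZ : ∀ ω, 0 < (|g ω| + η) / (m + η) := fun ω => by
    have := abs_nonneg (g ω)
    positivity
  have hZ1 : Ev p (fun ω => (|g ω| + η) / (m + η)) = 1 := by
    have e : (fun ω => (|g ω| + η) / (m + η)) = fun ω => (m + η)⁻¹ * (|g ω| + η) := by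
      funext ω
      rw [div_eq_inv_mul]
    rw [e, Ev_smul, Ev_add, ← hm, Ev_const]
    field_simp
  have key := ls_all ha hp hp1 g _ hZ hZ1
  have low : Ev p (fun ω => L * g ω ^ 2 - Real.exp L * (m + η) * |g ω|) ≤
      Ev p (fun ω => g ω ^ 2 * Real.log ((|g ω| + η) / (m + η))) := by
    refine Ev_mono h0.le h1.le fun ω => ?_
    have ht := hZ ω
    have k1 : Real.log ((|g ω| + η) / (m + η) / Real.exp L) = Real.log ((|g ω| + η) / (m + η)) - L := by
      rw [Real.log_div ht.ne' (Real.exp_pos L).ne', Real.log_exp]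
    have k2 := Real.one_sub_inv_le_log_of_pos (div_pos ht (Real.exp_pos L))
    rw [k1] at k2
    have hg : 0 < |g ω| + η := by
      have := abs_nonneg (g ω)
      linarith
    have k3 : ((|g ω| + η) / (m + η) / Real.exp L)⁻¹ = Real.exp L * (m + η) / (|g ω| + η) := by
      field_simp
    rw [k3] at k2
    have k4 : g ω ^ 2 * (1 - Real.exp L * (m + η) / (|g ω| + η)) ≤
        g ω ^ 2 * (Real.log ((|g ω| + η) / (m + η)) - L) := mul_le_mul_of_nonneg_left k2 (sq_nonneg _)
    have k5 : g ω ^ 2 / (|g ω| + η) ≤ |g ω| := by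
      rw [div_le_iff₀ hg, ← sq_abs]
      nlinarith [abs_nonneg (g ω)]
    have k6 : g ω ^ 2 * (Real.exp L * (m + η) / (|g ω| + η)) ≤ Real.exp L * (m + η) * |g ω| := by
      have : g ω ^ 2 * (Real.exp L * (m + η) / (|g ω| + η)) =
          Real.exp L * (m + η) * (g ω ^ 2 / (|g ω| + η)) := by ring
      rw [this]
      exact mul_le_mul_of_nonneg_left k5 (by positivity)
    nlinarith [sq_nonneg (g ω)]
  rw [Ev_sub, Ev_smul, Ev_smul, ← hm] at low
  have h5 : Real.exp L * (m + η) * m ≤ 2 * Real.exp L * m ^ 2 := by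
    have := mul_le_mul_of_nonneg_left hηm (Real.exp_pos L).le
    nlinarith
  rw [← hm]
  linarith

/-- the inequality along a list (martingale differences) -/
lemma main2 {a : ℝ} (ha : 0 < a) (hp : a ≤ p) (hp1 : p ≤ 1 - a) (L : ℝ) (δ : ι → ℝ) (l : List ι) :
    ∀ M : (ι → Bool) → ℝ, (∀ i, Ev p (fun ω => |Dv p i M ω|) ≤ δ i) →
      L * (Ev p (fun ω => M ω ^ 2) - Ev p (fun ω => AvL p l M ω ^ 2)) ≤
        2 / a * ∑ j, (Ev p (fun ω => Dv p j M ω ^ 2) - Ev p (fun ω => Dv p j (AvL p l M) ω ^ 2)) +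
          2 * Real.exp L * (l.map fun i => δ i ^ 2).sum := by
  have h0 : 0 < p := by linarith
  have h1 : p < 1 := by linarith
  induction l with
  | nil =>
    intro M _
    simp [AvL]
  | cons i l ih =>
    intro M hM
    have h2 := ih (Av p i M) (fun j => by
      rw [← Av_Dv i j M]
      exact (Ev_abs_Av h0.le h1.le i _).trans (hM j))
    have h3 := main1 ha hp hp1 (Dv p i M) L
    have h4 := Ev_sq (p := p) i M
    have h5 : ∀ j, Ev p (fun ω => Dv p j (Dv p i M) ω ^ 2) =
        Ev p (fun ω => Dv p j M ω ^ 2) - Ev p (fun ω => Dv p j (Av p i M) ω ^ 2) := by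
      intro j
      rw [Dv_Dv j i M, ← Av_Dv i j M, Ev_sq i (Dv p j M)]
    have h6 : Ev p (fun ω => |Dv p i M ω|) ^ 2 ≤ δ i ^ 2 := by
      have := Ev_nonneg h0.le h1.le (f := fun ω => |Dv p i M ω|) fun ω => abs_nonneg _
      exact pow_le_pow_left₀ this (hM i) 2
    have h7 : 2 * Real.exp L * Ev p (fun ω => |Dv p i M ω|) ^ 2 ≤ 2 * Real.exp L * δ i ^ 2 :=
      mul_le_mul_of_nonneg_left h6 (by positivity)
    rw [List.map_cons, List.sum_cons]
    show L * (Ev p (fun ω => M ω ^ 2) - Ev p (fun ω => AvL p l (Av p i M) ω ^ 2)) ≤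
        2 / a * ∑ j, (Ev p (fun ω => Dv p j M ω ^ 2) - Ev p (fun ω => Dv p j (AvL p l (Av p i M)) ω ^ 2)) +
          2 * Real.exp L * (δ i ^ 2 + (l.map fun i => δ i ^ 2).sum)
    have h8 : ∑ j, (Ev p (fun ω => Dv p j M ω ^ 2) - Ev p (fun ω => Dv p j (AvL p l (Av p i M)) ω ^ 2)) =
        ∑ j, Ev p (fun ω => Dv p j (Dv p i M) ω ^ 2) +
        ∑ j, (Ev p (fun ω => Dv p j (Av p i M) ω ^ 2) - Ev p (fun ω => Dv p j (AvL p l (Av p i M)) ω ^ 2)) := by
      rw [← Finset.sum_add_distrib]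
      refine Finset.sum_congr rfl fun j _ => ?_
      rw [h5 j]
      ring
    rw [h8]
    have h9 : L * (Ev p (fun ω => M ω ^ 2) - Ev p (fun ω => AvL p l (Av p i M) ω ^ 2)) =
        L * Ev p (fun ω => Dv p i M ω ^ 2) +
          L * (Ev p (fun ω => Av p i M ω ^ 2) - Ev p (fun ω => AvL p l (Av p i M) ω ^ 2)) := by
      rw [← h4]
      ring
    rw [h9, mul_add, mul_add]
    linarith

/-- the difference of an increasing event is bounded by the pivotality -/
lemma abs_Dv_le {E : (ι → Bool) → Prop} (hE : Incr E) (h0 : 0 ≤ p) (h1 : p ≤ 1) (i : ι) (ω : ι → Bool) :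
    |Dv p i (fun ω => if E ω then 1 else 0) ω| ≤ if Piv E i ω then 1 else 0 := by
  have hmono : E (up i false ω) → E (up i true ω) := by
    intro h
    refine hE _ _ ?_ h
    intro j
    by_cases hj : j = i
    · subst hj
      rw [up_self, up_self]
      exact Bool.false_le _
    · rw [up_ne hj, up_ne hj]
  unfold Dv Av
  beta_reduce
  by_cases hP : Piv E i ω
  · rw [if_pos hP, if_pos hP.1, if_neg hP.2, abs_le]
    split_ifs <;> constructor <;> linarith
  · rw [if_neg hP]
    have hiff : E (up i true ω) ↔ E (up i false ω) := by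
      constructor
      · intro h
        by_contra hcon
        exact hP ⟨h, hcon⟩
      · exact hmono
    have hω : E ω ↔ E (up i false ω) := by
      rcases hb : ω i with _ | _
      · rw [up_eq hb]
      · rw [← hiff, up_eq hb]
    by_cases h : E (up i false ω)
    · rw [if_pos (hω.mpr h), if_pos (hiff.mpr h), if_pos h]
      have : (1 : ℝ) - (p * 1 + (1 - p) * 1) = 0 := by ring
      rw [this, abs_zero]
    · rw [if_neg (fun h' => h (hω.mp h')), if_neg (fun h' => h (hiff.mp h')), if_neg h]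
      simp

end

end Pool.Agent.helper64.DyS

namespace Pool.Agent.helper64.DyS

/-- **KKL** -/
theorem kkl {a : ℝ} (ha : 0 < a) (ha2 : a ≤ 1 / 2) : ∃ C : ℝ, 0 < C ∧ ∀ (ι : Type) [Fintype ι] (p : ℝ),
    a ≤ p → p ≤ 1 - a → ∀ E : (ι → Bool) → Prop, Incr E → ∀ L : ℝ, 1 ≤ L →
    (∀ i, Pr p (Piv E i) ≤ Real.exp (-L)) → L * (Pr p E * (1 - Pr p E)) ≤ C * Infl p E := by
  refine ⟨2 / a + 2, by positivity, ?_⟩
  intro ι _ p hp hp1 E hE L _ hL
  have h0 : 0 < p := by linarith
  have h1 : p < 1 := by linarith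
  obtain ⟨f, hf⟩ : ∃ f : (ι → Bool) → ℝ, f = fun ω => if E ω then 1 else 0 := ⟨_, rfl⟩
  have hD : ∀ i ω, |Dv p i f ω| ≤ if Piv E i ω then 1 else 0 := fun i ω => by
    rw [hf]
    exact abs_Dv_le hE h0.le h1.le i ω
  have key := main2 (p := p) ha hp hp1 L (fun i => Pr p (Piv E i)) (Finset.univ : Finset ι).toList f
    (fun i => Ev_mono h0.le h1.le fun ω => hD i ω)
  rw [Finset.sum_map_toList] at key
  have e1 : Ev p (fun ω => f ω ^ 2) = Pr p E := by
    unfold Pr
    congr 1
    funext ω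
    rw [hf]
    by_cases h : E ω <;> simp [h]
  have e2 : Ev p (fun ω => AvL p (Finset.univ : Finset ι).toList f ω ^ 2) = Pr p E ^ 2 := by
    have : (fun ω => AvL p (Finset.univ : Finset ι).toList f ω ^ 2) = fun _ => Pr p E ^ 2 := by
      funext ω
      rw [AvL_univ, hf]
      rfl
    rw [this, Ev_const]
  have e3 : ∑ j, (Ev p (fun ω => Dv p j f ω ^ 2) -
      Ev p (fun ω => Dv p j (AvL p (Finset.univ : Finset ι).toList f) ω ^ 2)) ≤ Infl p E := by
    unfold Infl
    refine Finset.sum_le_sum fun j _ => ?_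
    have k1 : 0 ≤ Ev p (fun ω => Dv p j (AvL p (Finset.univ : Finset ι).toList f) ω ^ 2) :=
      Ev_nonneg h0.le h1.le fun ω => sq_nonneg _
    have k2 : Ev p (fun ω => Dv p j f ω ^ 2) ≤ Pr p (Piv E j) := by
      refine Ev_mono h0.le h1.le fun ω => ?_
      have k3 := hD j ω
      rw [← sq_abs]
      by_cases h : Piv E j ω
      · rw [if_pos h] at k3 ⊢
        exact pow_le_one₀ (abs_nonneg _) k3
      · rw [if_neg h] at k3 ⊢
        have : |Dv p j f ω| = 0 := le_antisymm k3 (abs_nonneg _)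
        rw [this]
        norm_num
    linarith
  have e4 : 2 * Real.exp L * ∑ i, Pr p (Piv E i) ^ 2 ≤ 2 * Infl p E := by
    unfold Infl
    have k1 : ∑ i, Pr p (Piv E i) ^ 2 ≤ Real.exp (-L) * ∑ i, Pr p (Piv E i) := by
      rw [Finset.mul_sum]
      refine Finset.sum_le_sum fun i _ => ?_
      rw [pow_two]
      exact mul_le_mul_of_nonneg_right (hL i) (Pr_nonneg h0.le h1.le _)
    have k2 : 2 * Real.exp L * ∑ i, Pr p (Piv E i) ^ 2 ≤
        2 * Real.exp L * (Real.exp (-L) * ∑ i, Pr p (Piv E i)) := mul_le_mul_of_nonneg_left k1 (by positivity)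
    refine k2.trans (le_of_eq ?_)
    have k3 : Real.exp L * Real.exp (-L) = 1 := by rw [← Real.exp_add, add_neg_cancel, Real.exp_zero]
    calc 2 * Real.exp L * (Real.exp (-L) * ∑ i, Pr p (Piv E i)) =
        2 * (Real.exp L * Real.exp (-L)) * ∑ i, Pr p (Piv E i) := by ring
      _ = 2 * ∑ i, Pr p (Piv E i) := by rw [k3, mul_one]
  rw [e1, e2] at key
  have e5 := mul_le_mul_of_nonneg_left e3 (by positivity : (0 : ℝ) ≤ 2 / a)
  have e6 : L * (Pr p E * (1 - Pr p E)) = L * (Pr p E - Pr p E ^ 2) := by ring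
  rw [e6, add_mul]
  linarith

end Pool.Agent.helper64.DyS
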